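import Pool.Agent.H835.AV.AllDim

set_option autoImplicit false

/-!
# Cycles of all dimensions on sums of forms

Let `K` be a field (for instance an algebraic closure of `ℚ`) which contains a primitive `m`-th root
of unity `ζ`, and let `X` in `P^(N-1)` be a hypersurface whose equation is a sum `f_1 + ... + f_s` of
forms of degree `n` in `s` disjoint blocks of variables, where `n = m` in characteristic zero and
`n = m p^a` in characteristic `p`. (No condition on the singularities or on the degree: `X` can be
smooth and of general type.) The group `(ℤ/m)^s` acts on `X`: the element `g` multiplies the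
variables in the block `k` by `ζ ^ g k`.

A partition `π` of the set of blocks gives a closed subset `Z_π` of `X` of codimension (the number
of parts) `- 1`: the common zero set of the sums of the `f_k` over the parts of `π`; it is the join
of one hypersurface for each part. Let `S` be a nonempty set of partitions, and let `z` be an element
of the rational group ring which is killed by all characters `x` with `∑ x k = 0` such that no
`π` in `S` has the property that the sum of the `x k` over each part of `π` is `0`. (For instance `z`
can be the projector on the invariants, and `S` the set whose only element is the partition in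
one-element sets.)

The theorem says that in all dimensions `i < dim X`, `z` maps `CH_i(X) ⊗ ℚ` to the sum of the
multiples of one linear section and the classes of cycles supported in the union of the `Z_π`. There
are two consequences: if all `π` in `S` have at least `N - i` parts then `z` maps `CH_i(X) ⊗ ℚ` to
the multiples of a linear section, and if for all `π` in `S` the sums of the `f_k` over the parts
are products of linear forms then the image of `z` is generated by a linear section and finitely
many linear subspaces of `X`, in all dimensions.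
-/

universe u

namespace Pool.Agent.Results.MP_32dfd1_ag.AllDimensions

open MvPolynomial Pool.Agent.H835.AV

section defs

variable {K : Type u} [Field K] {N s m n i : ℕ}

/-- The `f k` are forms of degree `n`, where `f k` is a polynomial in the variables `X l` of the
block `k`, that is, with `β l = k`. -/
structure BlockForms (β : Fin N → Fin s) (n : ℕ) (f : Fin s → MvPolynomial (Fin N) K) :
    Prop where
  hom : ∀ k, IsHomogeneous (f k) n
  supp : ∀ k, f k ∈ supported K {l | β l = k}

/-- The ideal of the hypersurface `∑ k, f k = 0`. -/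
noncomputable def hyp (f : Fin s → MvPolynomial (Fin N) K) : Ideal (MvPolynomial (Fin N) K) :=
  Ideal.span {∑ k, f k}

/-- The action of `(ℤ/m)^s` on the Chow groups of the hypersurface: `g` acts by the automorphism
which multiplies the coordinates in the block `k` by `ζ ^ g k`. -/
noncomputable def act {ζ : K} (hζ : IsPrimitiveRoot ζ m) [NeZero m] (hmn : m ∣ n)
    {β : Fin N → Fin s} {f : Fin s → MvPolynomial (Fin N) K} (hf : BlockForms β n f) (i : ℕ)
    (g : Fin s → ZMod m) : CH (hyp f) i →ₗ[ℚ] CH (hyp f) i :=
  blockAct hζ.pow_eq_one (sum_stable hζ.pow_eq_one hmn hf.hom hf.supp) i g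

/-- The image of the element `z` of the group ring on the Chow group. -/
def image {ζ : K} (hζ : IsPrimitiveRoot ζ m) [NeZero m] (hmn : m ∣ n)
    {β : Fin N → Fin s} {f : Fin s → MvPolynomial (Fin N) K} (hf : BlockForms β n f) (i : ℕ)
    (z : (Fin s → ZMod m) → ℚ) : Set (CH (hyp f) i) :=
  Set.range fun α => ∑ g, z g • act hζ hmn hf i g α

/-- The sum of the `f k` over the part `l` of the partition `π` of the set of blocks. -/
noncomputable def part (f : Fin s → MvPolynomial (Fin N) K) (π : Fin s → Fin s) (l : Fin s) :
    MvPolynomial (Fin N) K := ∑ k with π k = l, f k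

/-- For all partitions in `S`, the sums of the `f k` over the parts are products of `n` linear
forms. -/
def Decomposable (f : Fin s → MvPolynomial (Fin N) K) (S : Set (Fin s → Fin s)) (n : ℕ) : Prop :=
  ∀ π ∈ S, ∀ l, ∃ L : Fin n → MvPolynomial (Fin N) K,
    (∀ j, IsHomogeneous (L j) 1) ∧ part f π l = ∏ j, L j

/-- `z` is killed by all characters `x` with `∑ k, x k = 0` such that there is no partition `π` in
`S` for which the sum of the `x k` over each part is `0`. -/
def Killed [NeZero m] (S : Set (Fin s → Fin s)) (z : (Fin s → ZMod m) → ℚ) : Prop :=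
  ∀ x : Fin s → ZMod m, ∑ k, x k = 0 → (∀ π ∈ S, ¬ ∀ l, ∑ k with π k = l, x k = 0) →
    ∑ g, (z g : ℂ) * ZMod.stdAddChar (∑ k, x k * g k) = 0

/-- The classes of the cycles supported in the union of the closed subsets `Z_π`, for `π` in `S`,
where `Z_π` is the common zero set of the forms `part f π l`. -/
noncomputable def Supported (f : Fin s → MvPolynomial (Fin N) K) (S : Set (Fin s → Fin s))
    (i : ℕ) : Submodule ℚ (CH (hyp f) i) :=
  Submodule.span ℚ {x | ∃ π ∈ S, ∃ V : Subvar (hyp f) i,
    Ideal.span (Set.range (part f π)) ≤ V.P ∧ x = (ratEq (hyp f) i).mkQ (Finsupp.single V 1)}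

/-- All elements of `A` are sums of a multiple of the class of one linear section of `I = 0` of
dimension at most `i`, cut out by coordinate hyperplanes, and an element of `D`. -/
def SectionMod (I : Ideal (MvPolynomial (Fin N) K)) (i : ℕ) (D : Submodule ℚ (CH I i))
    (A : Set (CH I i)) : Prop :=
  ∃ (r : ℕ) (c : Fin r → Fin N), DimAtMost (I ⊔ Ideal.span (Set.range fun l => X (c l))) i ∧
    ∀ α ∈ A, ∃ q : ℚ,
      α - q • (ratEq I i).mkQ (cyc I i (I ⊔ Ideal.span (Set.range fun l => X (c l)))) ∈ D

/-- The subvariety `V` is a linear subspace: its ideal is generated by linear forms. -/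
def Linear {I : Ideal (MvPolynomial (Fin N) K)} (V : Subvar I i) : Prop :=
  ∃ L : Set (MvPolynomial (Fin N) K), (∀ l ∈ L, IsHomogeneous l 1) ∧ V.P = Ideal.span L

/-- The span of the classes of the subvarieties in `T`. -/
noncomputable def classes {I : Ideal (MvPolynomial (Fin N) K)} (T : Finset (Subvar I i)) :
    Submodule ℚ (CH I i) :=
  Submodule.span ℚ {x | ∃ V ∈ T, x = (ratEq I i).mkQ (Finsupp.single V 1)}

end defs

/-- **Cycles of all dimensions on sums of forms.** Here `CH I i` is the Chow group of cycles of
dimension `i` with rational coefficients on the closed subscheme `I = 0` of the projective space. -/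
theorem result (K : Type u) [Field K] (m n a : ℕ) [NeZero m] (ζ : K) (hζ : IsPrimitiveRoot ζ m)
    (hmn : m ∣ n) (hn : n = m * ringExpChar K ^ a) (N s i : ℕ) (hi : i + 2 ≤ N)
    (β : Fin N → Fin s) (f : Fin s → MvPolynomial (Fin N) K) (hf : BlockForms β n f)
    (S : Set (Fin s → Fin s)) (hS : S.Nonempty) (z : (Fin s → ZMod m) → ℚ) (hz : Killed S z) :
    SectionMod (hyp f) i (Supported f S i) (image hζ hmn hf i z) ∧
    ((∀ k, f k ≠ 0) → (∀ π ∈ S, N ≤ i + (Set.range π).ncard) →
      SectionMod (hyp f) i ⊥ (image hζ hmn hf i z)) ∧
    (Decomposable f S n →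
      ∃ T : Finset (Subvar (hyp f) i), (∀ V ∈ T, Linear V) ∧ T.card ≤ S.ncard * n ^ s ∧
        SectionMod (hyp f) i (classes T) (image hζ hmn hf i z)) := by
  obtain ⟨r, c, h1, h2⟩ := all_main hζ hn hi hf.hom hf.supp hS z hz
  refine ⟨?_, fun h0 hcard => ?_, fun hL => ?_⟩
  · refine ⟨r, c, h1, ?_⟩
    rintro _ ⟨α, rfl⟩
    exact h2 α
  · obtain ⟨r, c, h3, h4⟩ := codim_main hζ hn hi hf.hom hf.supp h0 hS (fun π hπ => by
      right
      have h5 := hcard π hπ
      rw [Set.ncard_eq_toFinset_card', Set.toFinset_range] at h5
      exact h5) z hz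
    refine ⟨r, c, h3, ?_⟩
    rintro _ ⟨α, rfl⟩
    obtain ⟨q, hq⟩ := h4 α
    refine ⟨q, ?_⟩
    rw [Submodule.mem_bot, sub_eq_zero]
    exact hq
  · obtain ⟨T, h3, h4, h5⟩ := supp_lin (f := f) (n := n) S hL i
    rw [Fintype.card_fin] at h4
    refine ⟨T, h3, h4, r, c, h1, ?_⟩
    rintro _ ⟨α, rfl⟩
    obtain ⟨q, hq⟩ := h2 α
    refine ⟨q, ?_⟩
    refine Submodule.span_mono ?_ (h5 hq)
    rintro _ ⟨V, hV, rfl⟩
    exact ⟨V, hV, rfl⟩

end Pool.Agent.Results.MP_32dfd1_ag.AllDimensions
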