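import Pool.Agent.H837.SP.Final

/-!
# Zero-cycles in families over arbitrary rings: specialisation of rational equivalences with explicit bounds

Question Q1 predicts for a smooth projective variety `X` over `ℚ̄` with `H^1(X, ℚ) = 0`, for example a K3
surface, that any two effective zero-cycles of the same degree on `X` are rationally equivalent (modulo
torsion, but by Roitman's theorem there is no torsion). We study the least complexity of such a rational
equivalence in families: over the points of a parameter variety over `ℚ̄`, over the primes of a number ring
(with arbitrary bad reduction), or over any ring.

Let `R` be any commutative ring, let `X` be a closed subscheme of projective space over `R`, given by a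
finite set `S` of homogeneous forms (there is no assumption of flatness or smoothness, and all
characteristics may occur), and let `x i` and `y i`, `i = 0, …, n`, be sections of `X` over `R`. For a point `p`
of the spectrum of `R` let `complexity p` be the least complexity of a rational equivalence between the
zero-cycles `∑ [x i]` and `∑ [y i]` on the geometric fibre of `X` over `p`; it is infinite if they are not
rationally equivalent. Here a rational equivalence of complexity at most `c` is a morphism from the projective
line to the symmetric product of degree `n + 1 + c`, given by Chow forms of degree `c` in the parameter, from
`∑ [x i] + ∑ [w i]` to `∑ [y i] + ∑ [w i]`, for `c` auxiliary points `w i`.

1. The complexity over an algebraically closed field `K` of the zero-cycles given by a homomorphism `φ` from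
   `R` to `K` depends only on the kernel `p` of `φ`, it is `complexity p`, and the zero-cycles are rationally
   equivalent over `K` if and only if it is finite.
2. For every `c` the set of the points with complexity at most `c` is constructible, and at all points of its
   closure the complexity is at most `c (n + c + 2)`. So rational equivalence specialises with an explicit
   bound which does not depend on `X`, on the ring, or on the characteristics, and the points at which the
   zero-cycles are rationally equivalent are those of the increasing union of the closures of these sets,
   which are closed subsets on which the complexity is bounded. This countability theorem of Mumford and Roitman
   thus holds over countable fields, where it is useful only with a bound, and over number rings.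
3. If `R` is a Jacobson ring (for example finitely generated over `ℤ` or over `ℚ̄`), then the complexity at the
   point `p` is the least `c` such that the closed points `q` in the closure of `p` with complexity at most `c`
   are dense in it. So the complexities over `ℚ̄` (or over the fields `𝔽̄_p`) determine those over `ℂ`.
4. Let `R` be a Noetherian domain of dimension one, for example a number ring or the coordinate ring of an
   affine curve over `ℚ̄`. If the complexity at the generic point is at most `c`, then it is at most `c` at all
   but finitely many points and at most `c (n + c + 2)` at the others (the points of bad reduction); if it is
   larger than `c`, then it is at most `c` at finitely many points only. So for a pair of zero-cycles over a number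
   ring Q1 says that the complexities of all its reductions are bounded; it is enough that infinitely many
   are, and then there is the explicit bound for all of them. For a one-parameter family over `ℚ̄` whose
   zero-cycles are not rationally equivalent at the generic point Q1 says that the complexities at the closed
   points are finite, and we see that they tend to infinity.

## The proof

Let `O` be a valuation ring of an algebraically closed field `K`, and let a family of Chow forms over `K` be
given. We divide its coefficients by constants such that they are primitive. The reductions of the multiples
of Chow forms of `X` over `O` are again multiples of Chow forms. For every slope of the Newton polygon of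
the valuations of the constants a change of the parameter gives, by reduction, a family which connects the
reductions of the coefficients at the two vertices of the side, and these are Chow forms, since at a slope
in between only one coefficient survives. These families are composed; their degrees add up to at most `c`,
and there are at most `c` of them, each with at most `n + 1 + c` new auxiliary points. (Here the value group
is arbitrary, of any rank.) The residue field of `O` is not under control, but by the theorem of Łoś and the
theorem of Steinitz, for ultrapowers of `K` and `K'` with respect to a regular ultrafilter, the complexity
depends only on the kernel of the homomorphism from `R`. Constructibility follows in the same way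
for finitely generated rings, by Noetherian induction, and then for all rings. A point in the closure of a set
is a specialisation of a point with values in an ultraproduct of the residue fields of points of the set.
-/

set_option autoImplicit false

namespace Pool.Agent.Results.MP_32dfd1_ag.SpecialisationWithBounds

open Pool.Agent.H837.UF Pool.Agent.H837.QB Pool.Agent.H837.SP
open Topology (IsConstructible)

/-- **Rational equivalences of zero-cycles in families over an arbitrary ring.** -/
theorem result {R : Type} [CommRing R] {r n : ℕ} {S : Finset (MvPolynomial (Fin (r + 1)) R)}
    {x y : Fin (n + 1) → Fin (r + 1) → R} (h : Pair S x y) :
    (∀ (K : Type) [Field K] [IsAlgClosed K] (φ : R →+* K) (p : PrimeSpectrum R),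
      RingHom.ker φ = p.asIdeal →
        cplx (Cone S φ) (image φ x) (image φ y) = complexity S x y p ∧
        (Same (Cone S φ) (image φ x) (image φ y) ↔ complexity S x y p ≠ ⊤)) ∧
    (∀ c : ℕ, IsConstructible {p | complexity S x y p ≤ c} ∧
      ∀ p ∈ closure {p | complexity S x y p ≤ c}, complexity S x y p ≤ (c * (n + c + 2) : ℕ)) ∧
    (IsJacobsonRing R → ∀ (c : ℕ) (p : PrimeSpectrum R), complexity S x y p ≤ c ↔
      p ∈ closure {q : PrimeSpectrum R | q.asIdeal.IsMaximal ∧ p ≤ q ∧ complexity S x y q ≤ c}) ∧
    (∀ [IsDomain R] [IsNoetherianRing R] [Ring.DimensionLEOne R] (c : ℕ),
      (complexity S x y ⊥ ≤ c → {p | ¬ complexity S x y p ≤ c}.Finite ∧
        ∀ p, complexity S x y p ≤ (c * (n + c + 2) : ℕ)) ∧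
      (¬ complexity S x y ⊥ ≤ c → {p | complexity S x y p ≤ c}.Finite)) :=
  main h

end Pool.Agent.Results.MP_32dfd1_ag.SpecialisationWithBounds
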